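import Mathlib

namespace Pool.Agent.H.MP_6a29fd_al

open Filter
open scoped Classical

section
variable {G : Type} [Group G]

/-- One step of the lazy walk: `lazy S φ g` is the expectation of `φ (g * ξ)`. -/
noncomputable def lazy (S : Finset G) (φ : G → ℝ) (g : G) : ℝ :=
  φ g / 2 + (∑ s ∈ S, φ (g * s)) / (2 * S.card)

/-- The expectation of `φ (R n)` for the lazy walk `R` started at `1`. -/
noncomputable def Ex (S : Finset G) (n : ℕ) (φ : G → ℝ) : ℝ := (lazy S)^[n] φ 1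

/-- The expectation of `φ` at `d` independent lazy walks at time `n`. -/
noncomputable def ExD (S : Finset G) (n : ℕ) : (d : ℕ) → ((Fin d → G) → ℝ) → ℝ
  | 0, φ => φ Fin.elim0
  | d + 1, φ => Ex S n fun g => ExD S n d fun v => φ (Fin.cons g v)

/-- The probability that the law `w = 1` holds at `d` independent lazy walks at time `n`. -/
noncomputable def prob (S : Finset G) {d : ℕ} (w : FreeGroup (Fin d)) (n : ℕ) : ℝ :=
  ExD S n d fun v => if FreeGroup.lift v w = 1 then 1 else 0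

noncomputable def St (a t : G) (φ : G → ℝ) (g : G) : ℝ :=
  φ g / 2 + (φ (g * a) + φ (g * a⁻¹) + φ (g * t) + φ (g * t⁻¹)) / 8

theorem St_hom {H : Type} [Group H] (π : G →* H) (a t : G) (ψ : H → ℝ) (n : ℕ) (g : G) :
    (St a t)^[n] (fun g => ψ (π g)) g = (St (π a) (π t))^[n] ψ (π g) := by
  induction n generalizing g with
  | zero => rfl
  | succ n ih => simp only [Function.iterate_succ_apply', St, ih, map_mul, map_inv]

theorem St_le (a t : G) {φ ψ χ : G → ℝ} {α β γ : ℝ} (h : ∀ g, α * φ g + β * ψ g + γ ≤ χ g) (n : ℕ)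
    (g : G) : α * (St a t)^[n] φ g + β * (St a t)^[n] ψ g + γ ≤ (St a t)^[n] χ g := by
  induction n generalizing g with
  | zero => exact h g
  | succ n ih =>
    simp only [Function.iterate_succ_apply', St]
    linarith [ih g, ih (g * a), ih (g * a⁻¹), ih (g * t), ih (g * t⁻¹)]

theorem St_01 (a t : G) {φ : G → ℝ} (h : ∀ g, 0 ≤ φ g ∧ φ g ≤ 1) (n : ℕ) (g : G) :
    0 ≤ (St a t)^[n] φ g ∧ (St a t)^[n] φ g ≤ 1 := by
  induction n generalizing g with
  | zero => exact h g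
  | succ n ih =>
    simp only [Function.iterate_succ_apply', St]
    constructor <;> linarith [ih g, ih (g * a), ih (g * a⁻¹), ih (g * t), ih (g * t⁻¹)]

theorem St_fin (a t : G) (n : ℕ) (g : G) : ∃ R : Finset G, ∀ φ ψ : G → ℝ,
    (∀ x ∈ R, φ x = ψ x) → (St a t)^[n] φ g = (St a t)^[n] ψ g := by
  induction n generalizing g with
  | zero => exact ⟨{g}, fun φ ψ h => h g (by simp)⟩
  | succ n ih =>
    choose R hR using ih
    refine ⟨R g ∪ R (g * a) ∪ R (g * a⁻¹) ∪ R (g * t) ∪ R (g * t⁻¹), fun φ ψ h => ?_⟩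
    simp only [Function.iterate_succ_apply', St]
    rw [hR g φ ψ, hR (g * a) φ ψ, hR (g * a⁻¹) φ ψ, hR (g * t) φ ψ, hR (g * t⁻¹) φ ψ] <;>
      exact fun x hx => h x (by simp [hx])

end

theorem osc (p : ℕ → Set ℕ → ℝ) (c : ℝ) (hc : 0 < c) (h0 : ∀ n S, 0 ≤ p n S ∧ p n S ≤ 1)
    (loc : ∀ n, ∃ C, ∀ S S', (∀ s ≤ C, s ∈ S ↔ s ∈ S') → p n S = p n S')
    (mono : ∀ n S S', S ⊆ S' → p n S' ≤ p n S)
    (gap : ∀ lo, ∀ᶠ n in atTop, ∀ S ⊆ Set.Iic lo, p n (S ∪ Set.Ioi lo) + c ≤ p n S) :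
    ∃ U, limsup (p · U) atTop ≠ liminf (p · U) atTop := by
  choose C hC using loc
  let B := {β | ∃ S b, S ⊆ Set.Iic b ∧ ∀ᶠ n in atTop, p n S < β}
  have B0 : B.Nonempty := ⟨2, ∅, 0, by simp, .of_forall fun n => by linarith [(h0 n ∅).2]⟩
  have B1 : BddBelow B := ⟨0, fun β ⟨S, b, _, h⟩ => by
    obtain ⟨n, hn⟩ := h.exists; linarith [(h0 n S).1]⟩
  obtain ⟨β, ⟨S0, b0, s0, s1⟩, hβ⟩ := exists_lt_of_csInf_lt B0 (lt_add_of_pos_right _ (half_pos hc))
  set L := sInf B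
  have step : ∀ x : {x : Set ℕ × ℕ // x.1 ⊆ Set.Iic x.2 ∧ S0 ⊆ x.1},
      ∃ y : {x : Set ℕ × ℕ // x.1 ⊆ Set.Iic x.2 ∧ S0 ⊆ x.1}, x.1.2 < y.1.2 ∧
        (∀ s ≤ x.1.2, s ∈ x.1.1 ↔ s ∈ y.1.1) ∧ ∃ n ≥ x.1.2, ∃ n' ≥ x.1.2,
          ∀ U, (∀ s ≤ y.1.2, s ∈ U ↔ s ∈ y.1.1) → L - c / 4 ≤ p n U ∧ p n' U ≤ L - c / 2 := by
    rintro ⟨⟨S, b⟩, h1, h2⟩
    have f1 : ∃ᶠ n in atTop, L - c / 4 ≤ p n S := by
      by_contra h
      simp only [not_frequently, not_le] at h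
      linarith [csInf_le B1 ⟨S, b, h1, h⟩]
    obtain ⟨n, hn, n1⟩ := (f1.and_eventually (eventually_ge_atTop b)).exists
    let lo := max b (C n)
    obtain ⟨n', ⟨m1, m2⟩, m3⟩ := (((gap lo).and s1).and (eventually_ge_atTop b)).exists
    have l1 : b ≤ lo := le_max_left _ _
    have l2 : C n ≤ lo := le_max_right _ _
    refine ⟨⟨(S ∪ Set.Ioc lo (C n'), lo + C n' + 1), ?_, h2.trans Set.subset_union_left⟩,
      show b < lo + C n' + 1 by omega, fun s (hs : s ≤ b) => ?_, n, n1, n', m3, fun U hU => ⟨?_, ?_⟩⟩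
    · rintro s (hs | hs)
      · have : s ≤ b := h1 hs
        show s ≤ lo + C n' + 1
        omega
      · have := hs.2
        show s ≤ lo + C n' + 1
        omega
    · simp only [Set.mem_union, Set.mem_Ioc]
      exact ⟨Or.inl, fun h => h.resolve_right (by omega)⟩
    · refine hn.trans_eq (hC n _ _ fun s hs => ?_)
      rw [hU s (show s ≤ lo + C n' + 1 by omega)]
      simp only [Set.mem_union, Set.mem_Ioc]
      exact ⟨Or.inl, fun h => h.resolve_right (by omega)⟩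
    · rw [hC n' U (S ∪ Set.Ioi lo) fun s hs => ?_]
      · linarith [m1 S (h1.trans (Set.Iic_subset_Iic.2 l1)), mono n' _ _ h2]
      · rw [hU s (show s ≤ lo + C n' + 1 by omega)]
        simp [hs]
  choose F F1 F2 F3 using step
  let x : ℕ → {x : Set ℕ × ℕ // x.1 ⊆ Set.Iic x.2 ∧ S0 ⊆ x.1} := fun j =>
    F^[j] ⟨(S0, b0), s0, le_rfl⟩
  have xs : ∀ j, x (j + 1) = F (x j) := fun j => Function.iterate_succ_apply' _ _ _
  have xm : StrictMono fun j => (x j).1.2 := strictMono_nat_of_lt_succ fun j => xs j ▸ F1 _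
  have ag : ∀ i j, i ≤ j → ∀ s ≤ (x i).1.2, s ∈ (x i).1.1 ↔ s ∈ (x j).1.1 := by
    intro i j hij s hs
    induction hij with
    | refl => rfl
    | step h ih => rw [ih, xs]; exact F2 _ s (hs.trans (xm.monotone h))
  let U : Set ℕ := {s | s ∈ (x s).1.1}
  have hU : ∀ j, ∀ s ≤ (x j).1.2, s ∈ U ↔ s ∈ (x j).1.1 := fun j s hs => by
    rcases le_total s j with h | h
    · exact ag s j h s (xm.id_le s)
    · exact (ag j s h s hs).symm
  have key : ∀ j, ∃ n ≥ j, ∃ n' ≥ j, L - c / 4 ≤ p n U ∧ p n' U ≤ L - c / 2 := fun j => by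
    obtain ⟨n, h1, n', h2, h⟩ := F3 (x j)
    exact ⟨n, (xm.id_le j).trans h1, n', (xm.id_le j).trans h2, h U (xs j ▸ hU (j + 1))⟩
  have a1 : L - c / 4 ≤ limsup (p · U) atTop :=
    le_limsup_of_frequently_le (frequently_atTop.2 fun j => by
      obtain ⟨n, h1, -, -, h, -⟩ := key j; exact ⟨n, h1, h⟩)
      (isBoundedUnder_of ⟨1, fun n => (h0 n U).2⟩)
  have a2 : liminf (p · U) atTop ≤ L - c / 2 :=
    liminf_le_of_frequently_le (frequently_atTop.2 fun j => by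
      obtain ⟨-, -, n, h1, -, h⟩ := key j; exact ⟨n, h1, h⟩)
      (isBoundedUnder_of ⟨0, fun n => (h0 n U).1⟩)
  exact ⟨U, fun h => by linarith⟩

end Pool.Agent.H.MP_6a29fd_al
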