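import Pool.Agent.H.MP_6a29fd_al.A

namespace Pool.Agent.H.MP_6a29fd_al

open Filter LaurentPolynomial
open scoped Classical Pointwise commutatorElement

abbrev A := LaurentPolynomial ℤ

noncomputable def r (S : Set ℕ) : A →+ (ℕ → ℤ) where
  toFun p s := if s ∈ S then p.coeff s else 0
  map_zero' := by ext; simp
  map_add' p q := by ext s; by_cases h : s ∈ S <;> simp [h, AddMonoidAlgebra.coeff_add]

@[ext] structure HG (S : Set ℕ) where
  f : A
  c : ℕ → ℤ
  k : ℤ

variable {S : Set ℕ}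

noncomputable instance : Mul (HG S) :=
  ⟨fun x y => ⟨x.f + T x.k * y.f, x.c + y.c + r S (invert x.f * (T x.k * y.f)), x.k + y.k⟩⟩
noncomputable instance : One (HG S) := ⟨⟨0, 0, 0⟩⟩
noncomputable instance : Inv (HG S) :=
  ⟨fun x => ⟨-(T (-x.k) * x.f), -x.c + r S (invert x.f * x.f), -x.k⟩⟩

@[simp] theorem mul_f (x y : HG S) : (x * y).f = x.f + T x.k * y.f := rfl
theorem mul_c (x y : HG S) : (x * y).c = x.c + y.c + r S (invert x.f * (T x.k * y.f)) := rfl
@[simp] theorem mul_k (x y : HG S) : (x * y).k = x.k + y.k := rfl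
@[simp] theorem one_f : (1 : HG S).f = 0 := rfl
@[simp] theorem one_c : (1 : HG S).c = 0 := rfl
@[simp] theorem one_k : (1 : HG S).k = 0 := rfl
@[simp] theorem inv_f (x : HG S) : x⁻¹.f = -(T (-x.k) * x.f) := rfl
theorem inv_c (x : HG S) : x⁻¹.c = -x.c + r S (invert x.f * x.f) := rfl
@[simp] theorem inv_k (x : HG S) : x⁻¹.k = -x.k := rfl

theorem TT (k : ℤ) : (T k * T (-k) : A) = 1 := by rw [← T_add]; simp

noncomputable instance : Group (HG S) := Group.ofLeftAxioms
  (fun x y z => by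
    ext : 1
    · simp only [mul_f, mul_k, T_add]; ring
    · have : invert x.f * (T x.k * y.f) + invert (x.f + T x.k * y.f) * (T (x.k + y.k) * z.f) =
          invert y.f * (T y.k * z.f) + invert x.f * (T x.k * (y.f + T y.k * z.f)) := by
        simp only [map_add, map_mul, invert_T, T_add]
        linear_combination (invert y.f * T y.k * z.f) * TT x.k
      have h := congrArg (r S) this
      rw [map_add, map_add (r S)] at h
      simp only [mul_c, mul_f, mul_k]
      linear_combination h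
    · simp [add_assoc])
  (fun x => by ext : 1 <;> simp [mul_c])
  (fun x => by
    ext : 1
    · simp
    · have : invert (-(T (-x.k) * x.f)) * (T (-x.k) * x.f) = -(invert x.f * x.f) := by
        simp only [map_neg, map_mul, invert_T, neg_neg]
        linear_combination (-(invert x.f * x.f)) * TT x.k
      rw [mul_c, inv_c, inv_f, inv_k, this, map_neg, one_c]
      abel
    · simp)

abbrev L := HG ∅

noncomputable def pr (S : Set ℕ) : HG S →* L where
  toFun x := ⟨x.f, 0, x.k⟩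
  map_one' := rfl
  map_mul' x y := by
    ext : 1
    · rfl
    · ext s; simp [mul_c, r]
    · rfl

noncomputable def ga (S : Set ℕ) : HG S := ⟨1, 0, 0⟩
noncomputable def gt (S : Set ℕ) : HG S := ⟨0, 0, 1⟩

noncomputable def FF (y z : HG S) : A := (1 - T z.k) * y.f - (1 - T y.k) * z.f

noncomputable def val (x y z : HG S) : A :=
  T (200 * x.k) * (invert (FF y z) * FF y z) - T (-(200 * x.k)) * (invert (FF y z) * FF y z)

theorem pow_k (x : HG S) (n : ℕ) : (x ^ n).k = n * x.k := by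
  induction n with
  | zero => simp
  | succ n ih => rw [pow_succ, mul_k, ih]; push_cast; ring

theorem law (x y z : HG S) : ⁅⁅y, z⁆, x ^ 200 * ⁅y, z⁆ * (x ^ 200)⁻¹⁆ = 1 ↔ r S (val x y z) = 0 := by
  have u1 : ⁅y, z⁆.k = 0 := by simp [commutatorElement_def]
  have u2 : ⁅y, z⁆.f = FF y z := by
    simp only [commutatorElement_def, mul_f, mul_k, inv_f, inv_k, FF, T_add]
    linear_combination (-(T z.k * y.f) - T z.k * T (-z.k) * z.f) * TT y.k - z.f * TT z.k
  generalize ⁅y, z⁆ = u at u1 u2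
  have v1 : (x ^ 200 * u * (x ^ 200)⁻¹).k = 0 := by simp [u1]
  have v2 : (x ^ 200 * u * (x ^ 200)⁻¹).f = T (200 * x.k) * FF y z := by
    simp only [mul_f, mul_k, inv_f, u1, u2, add_zero, pow_k]
    push_cast
    linear_combination (-(x ^ 200).f) * TT (200 * x.k)
  generalize x ^ 200 * u * (x ^ 200)⁻¹ = v at v1 v2
  rw [commutatorElement_eq_one_iff_mul_comm, HG.ext_iff]
  simp only [mul_f, mul_k, mul_c, u1, u2, v1, v2, T_zero, one_mul, add_comm (FF y z), true_and,
    and_true, add_comm u.c, add_right_inj, val, map_sub, sub_eq_zero, map_mul, invert_T,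
    mul_left_comm (invert (FF y z)), mul_assoc]

def Sup (p : A) (a : ℤ) : Prop := ∀ i, a ≤ |i| → p.coeff i = 0

theorem T_mul (k : ℤ) (p : A) (i : ℤ) : (T k * p).coeff i = p.coeff (-k + i) := by
  rw [T, AddMonoidAlgebra.coeff_single_mul_apply, one_mul]

theorem Sup.mul {p q : A} {a b : ℤ} (hp : Sup p a) (hq : Sup q b) : Sup (p * q) (a + b) := by
  intro i hi
  by_contra h
  obtain ⟨j, hj, l, hl, rfl⟩ := Finset.mem_add.1
    (AddMonoidAlgebra.support_coeff_mul_subset p q (Finsupp.mem_support_iff.2 h))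
  have a1 := mt (hp j) (Finsupp.mem_support_iff.1 hj)
  have a2 := mt (hq l) (Finsupp.mem_support_iff.1 hl)
  have := abs_add_le j l
  omega

def good (a : ℤ) (g : L) : Prop := Sup g.f a ∧ |g.k| < a

theorem FF_sup {a : ℤ} {y z : L} (hy : good a y) (hz : good a z) : Sup (FF y z) (2 * a) := by
  intro i hi
  have h1 := hy.2
  have h2 := hz.2
  simp only [FF, sub_mul, one_mul, AddMonoidAlgebra.coeff_sub, Finsupp.sub_apply, T_mul]
  rw [hy.1, hy.1, hz.1, hz.1] <;> simp only [abs_lt, le_abs] at * <;> omega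

theorem sep {a : ℤ} {lo : ℕ} {x y z : L} (hy : good a y) (hz : good a z) (hF : FF y z ≠ 0)
    (hx : 4 * a + lo ≤ |200 * x.k|) :
    (∀ s ≤ lo, (val x y z).coeff (s : ℕ) = 0) ∧ ∃ s > lo, (val x y z).coeff (s : ℕ) ≠ 0 := by
  have h1 := FF_sup hy hz
  have h2 : Sup (invert (FF y z) * FF y z) (2 * a + 2 * a) :=
    Sup.mul (fun i hi => by rw [invert_apply]; exact h1 _ (by rwa [abs_neg])) h1
  have h3 : invert (FF y z) * FF y z ≠ 0 :=
    mul_ne_zero ((map_ne_zero_iff _ invert.injective).2 hF) hF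
  unfold val
  generalize invert (FF y z) * FF y z = N at h2 h3
  generalize 200 * x.k = m at hx
  simp only [AddMonoidAlgebra.coeff_sub, Finsupp.sub_apply, T_mul, neg_neg]
  constructor
  · intro s hs
    rw [h2, h2] <;> simp only [le_abs] at * <;> omega
  · obtain ⟨j, hj⟩ : ∃ j, N.coeff j ≠ 0 := by
      by_contra h
      push Not at h
      exact h3 (LaurentPolynomial.ext h)
    have a1 := mt (h2 j) hj
    obtain ⟨s, hs⟩ := Int.eq_ofNat_of_zero_le (show 0 ≤ j + |m| by
      simp only [not_le, abs_lt] at a1; omega)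
    refine ⟨s, by simp only [not_le, abs_lt] at a1; omega, ?_⟩
    rw [← hs]
    simp only [not_le, abs_lt] at a1
    rcases abs_cases m with ⟨h, -⟩ | ⟨h, -⟩ <;> rw [h] at hx ⊢
    · rw [h2 (m + _) (le_abs.2 (by omega))]; simpa using hj
    · rw [h2 (-m + _) (le_abs.2 (by omega))]; simpa using hj

noncomputable def ind (P : Prop) : ℝ := if P then 1 else 0

theorem ind_pos {P : Prop} (h : P) : ind P = 1 := if_pos h
theorem ind_neg {P : Prop} (h : ¬ P) : ind P = 0 := if_neg h
theorem i01 (P : L → Prop) (g : L) : 0 ≤ ind (P g) ∧ ind (P g) ≤ 1 := by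
  unfold ind; split_ifs <;> simp

noncomputable abbrev E (n : ℕ) (φ : L → ℝ) (g : L) : ℝ := (St (ga ∅) (gt ∅))^[n] φ g

theorem mom (n : ℕ) (g : L) : E n (fun g => (g.k : ℝ) ^ 2) g = (g.k : ℝ) ^ 2 + n / 4 ∧
    E n (fun g => (g.k : ℝ) ^ 4) g = (g.k : ℝ) ^ 4 + 3 / 2 * n * (g.k : ℝ) ^ 2 + (3 * n ^ 2 + n) / 16 := by
  induction n generalizing g with
  | zero => simp [E]
  | succ n ih =>
    simp only [E] at ih
    simp only [E, Function.iterate_succ_apply', St, ih, mul_k, inv_k, show (ga ∅).k = 0 from rfl,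
      show (gt ∅).k = 1 from rfl]
    push_cast
    constructor <;> ring

theorem far {n : ℕ} (hn : 0 < n) : 1 / 16 ≤ E n (fun g => ind ((n : ℤ) ≤ 8 * g.k ^ 2)) 1 := by
  have n1 : (1 : ℝ) ≤ n := by exact_mod_cast hn
  refine le_trans ?_ (St_le _ _ (φ := fun g => (g.k : ℝ) ^ 2) (ψ := fun g => (g.k : ℝ) ^ 4)
    (α := 1 / n) (β := -1 / (4 * n ^ 2)) (γ := -1 / 8) (fun g => ?_) n 1)
  · have := mom n 1
    simp only [E] at this
    rw [this.1, this.2, one_k]
    field_simp
    push_cast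
    nlinarith
  · have e : 1 / (n : ℝ) * (g.k : ℝ) ^ 2 + -1 / (4 * n ^ 2) * (g.k : ℝ) ^ 4 + -1 / 8 =
        (g.k : ℝ) ^ 2 / n - ((g.k : ℝ) ^ 2 / n) ^ 2 / 4 - 1 / 8 := by field_simp; ring
    rw [e, ind]
    split_ifs with h
    · nlinarith [sq_nonneg ((g.k : ℝ) ^ 2 / n - 2)]
    · have : 8 * (g.k : ℝ) ^ 2 ≤ n := by exact_mod_cast (not_le.1 h).le
      have : (g.k : ℝ) ^ 2 / n ≤ 1 / 8 := by rw [div_le_iff₀ (by linarith)]; linarith
      nlinarith [sq_nonneg ((g.k : ℝ) ^ 2 / n)]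


theorem near (a : ℤ) (ha : 0 ≤ a) (n : ℕ) (g : L) (hg : Sup g.f a) :
    (a : ℝ) ^ 2 * E n (fun g => ind (¬ good a g)) g ≤ (g.k : ℝ) ^ 2 + n / 4 := by
  induction n generalizing g with
  | zero =>
    simp only [E, Function.iterate_zero, id]
    by_cases h : good a g
    · rw [ind_neg (not_not.2 h)]; simp; positivity
    · have : a ^ 2 ≤ g.k ^ 2 := by
        rw [sq_le_sq, abs_of_nonneg ha]; exact not_lt.1 fun h' => h ⟨hg, h'⟩
      rw [ind_pos h]; simp; exact_mod_cast this
  | succ n ih =>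
    by_cases h : |g.k| < a
    · have s2 : ∀ i, a ≤ |i| → (T g.k : A).coeff i = 0 := fun i hi => by
        rw [T_apply, if_neg]; rintro rfl; omega
      have h1 := ih g hg
      have h2 := ih (g * ga ∅) fun i hi => by
        simp [ga, AddMonoidAlgebra.coeff_add, hg i hi, s2 i hi]
      have h3 := ih (g * (ga ∅)⁻¹) fun i hi => by
        simp [ga, AddMonoidAlgebra.coeff_add, AddMonoidAlgebra.coeff_neg, hg i hi, s2 i hi]
      have h4 := ih (g * gt ∅) (by simpa [gt] using hg)
      have h5 := ih (g * (gt ∅)⁻¹) (by simpa [gt] using hg)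
      simp only [E, mul_k, inv_k] at h1 h2 h3 h4 h5
      simp only [E, Function.iterate_succ_apply', St]
      simp only [show (ga ∅).k = 0 from rfl, show (gt ∅).k = 1 from rfl] at h2 h3 h4 h5
      push_cast at h2 h3 h4 h5 ⊢
      nlinarith
    · have h1 : a ^ 2 ≤ g.k ^ 2 := by rw [sq_le_sq, abs_of_nonneg ha]; exact not_lt.1 h
      have h2 : (a : ℝ) ^ 2 ≤ (g.k : ℝ) ^ 2 := by exact_mod_cast h1
      have h3 := (St_01 (ga ∅) (gt ∅) (i01 fun g => ¬ good a g) (n + 1) g).2
      have := mul_le_mul_of_nonneg_left h3 (sq_nonneg (a : ℝ))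
      have : (0 : ℝ) ≤ (n + 1 : ℕ) / 4 := by positivity
      linarith

theorem nz (n : ℕ) (z : L) (hz : z.k ≠ 0) :
    1 / 8 ≤ E (n + 1) (fun y => ind (FF y z ≠ 0)) 1 := by
  have b := St_01 (ga ∅) (gt ∅) (i01 fun y => FF y z ≠ 0) n
  have h1 : ∀ (φ : L → ℝ) n g, E n φ (ga ∅ * g) = E n (fun y => φ (ga ∅ * y)) g := by
    intro φ n g
    induction n generalizing g with
    | zero => rfl
    | succ n ih =>
      simp only [E] at ih
      simp only [E, Function.iterate_succ_apply', St, mul_assoc, ih]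
  have h2 := St_le (ga ∅) (gt ∅) (φ := fun y => ind (FF y z ≠ 0))
    (ψ := fun y => ind (FF (ga ∅ * y) z ≠ 0)) (χ := fun _ => 0) (α := -1) (β := -1)
    (γ := 1) (fun y => by
      by_cases h : FF y z = 0
      · have : FF (ga ∅ * y) z ≠ 0 := fun h' => by
          have e : (1 - T z.k : A) = 0 := by
            simp only [FF, ga, mul_f, mul_k, T_zero, one_mul, zero_add] at h h'
            linear_combination h' - h
          have := congrArg (fun p : A => p.coeff 0) (sub_eq_zero.1 e)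
          simp [hz, ← T_zero] at this
        rw [ind_pos this, ind_neg (not_not.2 h)]; norm_num
      · rw [ind_pos h]; linarith [(i01 (fun y => FF (ga ∅ * y) z ≠ 0) y).1]) n 1
  have h3 := St_le (ga ∅) (gt ∅) (φ := fun _ => 0) (ψ := fun _ => 0) (χ := fun _ => 0) (α := 2)
    (β := 0) (γ := 0) (by simp) n 1
  have h4 := h1 (fun y => ind (FF y z ≠ 0)) n 1
  simp only [E, Function.iterate_succ_apply', St, one_mul, mul_one] at h4 ⊢
  linarith [(b 1).1, (b (ga ∅)⁻¹).1, (b (gt ∅)).1, (b (gt ∅)⁻¹).1]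

end Pool.Agent.H.MP_6a29fd_al
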