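import Pool.Agent.H.MP_6a29fd_al.B

namespace Pool.Agent.H.MP_6a29fd_al

open Filter
open scoped Classical commutatorElement

noncomputable def pp (n : ℕ) (S : Set ℕ) : ℝ :=
  E n (fun x => E n (fun z => E n (fun y => ind (r S (val x y z) = 0)) 1) 1) 1

theorem E_mono {φ ψ : L → ℝ} (h : ∀ g, φ g ≤ ψ g) (n : ℕ) : E n φ 1 ≤ E n ψ 1 := by
  simpa using St_le (ga ∅) (gt ∅) (φ := φ) (ψ := φ) (χ := ψ) (α := 1) (β := 0) (γ := 0)
    (by simpa using h) n 1

theorem ind_mono {S S' : Set ℕ} (h : S ⊆ S') (p : A) : ind (r S' p = 0) ≤ ind (r S p = 0) := by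
  by_cases h1 : r S' p = 0
  · rw [ind_pos h1, ind_pos]
    ext s
    have := congrFun h1 s
    by_cases hs : s ∈ S
    · simpa [r, hs, h hs] using this
    · simp [r, hs]
  · rw [ind_neg h1]; exact (i01 (fun _ => r S p = 0) 1).1

theorem pp_loc (n : ℕ) : ∃ C, ∀ S S', (∀ s ≤ C, s ∈ S ↔ s ∈ S') → pp n S = pp n S' := by
  obtain ⟨R, hR⟩ := St_fin (ga ∅) (gt ∅) n 1
  have k : ∀ p : A, ∃ c : ℕ, ∀ s : ℕ, p.coeff s ≠ 0 → s ≤ c := fun p =>
    ⟨p.coeff.support.sup Int.toNat, fun s h => by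
      simpa using Finset.le_sup (f := Int.toNat) (Finsupp.mem_support_iff.2 h)⟩
  choose c hc using k
  obtain ⟨C, hC⟩ := ((R ×ˢ R ×ˢ R).image fun v => c (val v.1 v.2.1 v.2.2)).bddAbove
  refine ⟨C, fun S S' h => hR _ _ fun x hx => hR _ _ fun z hz => hR _ _ fun y hy => ?_⟩
  congr 2
  ext s
  by_cases h0 : (val x y z).coeff s = 0
  · simp [r, h0]
  · have := hC (Finset.mem_coe.2 (Finset.mem_image_of_mem _
      (show (x, y, z) ∈ R ×ˢ R ×ˢ R by simp [hx, hy, hz])))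
    simp [r, h s ((hc _ s h0).trans this)]

theorem pp_gap (lo : ℕ) : ∀ᶠ n in atTop, ∀ S ⊆ Set.Iic lo,
    pp n (S ∪ Set.Ioi lo) + 1 / 4096 ≤ pp n S := by
  refine eventually_atTop.2 ⟨lo * lo + 1, fun n hn S hS => ?_⟩
  have n0 : 0 < n := by omega
  set q : ℕ := n.sqrt with hq
  have q1 : q * q ≤ n := Nat.sqrt_le n
  have q2 : n < (q + 1) * (q + 1) := Nat.lt_succ_sqrt n
  have q3 : lo ≤ q := Nat.le_sqrt.2 (by omega)
  set a : ℤ := 12 * (q + 1) with ha
  have bad : E n (fun g => ind (¬ good a g)) 1 ≤ 1 / 512 := by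
    have h1 := near a (by positivity) n 1 fun i _ => rfl
    have h2 : (n : ℝ) < (q + 1) * (q + 1) := by exact_mod_cast q2
    have h3 : (0 : ℝ) < (q + 1) * (q + 1) := by positivity
    rw [ha, one_k] at h1
    push_cast at h1
    by_contra h
    nlinarith
  have fk : ∀ g : L, (n : ℤ) ≤ 8 * g.k ^ 2 → g.k ≠ 0 ∧ 4 * a + lo ≤ |200 * g.k| := by
    intro g h
    have k0 : g.k ≠ 0 := fun h0 => by rw [h0] at h; omega
    have k1 : 1 ≤ |g.k| := Int.one_le_abs k0
    have k2 : (q : ℤ) ≤ 3 * |g.k| := by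
      have : (q : ℤ) * q ≤ n := by exact_mod_cast q1
      rw [← sq_abs] at h
      nlinarith
    rw [abs_mul]
    exact ⟨k0, by norm_num; omega⟩
  have h := St_le (ga ∅) (gt ∅) (ψ := fun g => ind ((n : ℤ) ≤ 8 * g.k ^ 2)) (α := 1)
    (φ := fun x => E n (fun z => E n (fun y => ind (r (S ∪ Set.Ioi lo) (val x y z) = 0)) 1) 1)
    (χ := fun x => E n (fun z => E n (fun y => ind (r S (val x y z) = 0)) 1) 1)
    (β := 1 / 256) (γ := 0) (fun x => ?_) n 1
  · have := far n0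
    simp only [pp, E] at *
    linarith
  by_cases hx : (n : ℤ) ≤ 8 * x.k ^ 2
  swap
  · rw [ind_neg hx]
    simpa using E_mono (fun z => E_mono (fun y => ind_mono Set.subset_union_left _) n) n
  rw [ind_pos hx]
  have h1 := St_le (ga ∅) (gt ∅) (φ := fun g => ind ((n : ℤ) ≤ 8 * g.k ^ 2))
    (ψ := fun g => ind (¬ good a g)) (α := 1 / 8) (β := -1) (γ := 0) (fun _ => le_rfl) n 1
  have h2 := St_le (ga ∅) (gt ∅) (α := 1) (β := 1) (γ := -1 / 512)
    (φ := fun z => E n (fun y => ind (r (S ∪ Set.Ioi lo) (val x y z) = 0)) 1)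
    (χ := fun z => E n (fun y => ind (r S (val x y z) = 0)) 1)
    (ψ := fun g => 1 / 8 * ind ((n : ℤ) ≤ 8 * g.k ^ 2) + -1 * ind (¬ good a g) + 0)
    (fun z => ?_) n 1
  · have := far n0
    simp only [E] at *
    linarith
  have h3 := St_le (ga ∅) (gt ∅) (φ := fun y => ind (FF y z ≠ 0))
    (ψ := fun g => ind (¬ good a g)) (α := 1) (β := -1) (γ := 0) (fun _ => le_rfl) n 1
  have h4 := St_le (ga ∅) (gt ∅) (α := 1) (β := 1) (γ := -ind (¬ good a z))
    (φ := fun y => ind (r (S ∪ Set.Ioi lo) (val x y z) = 0)) (χ := fun y => ind (r S (val x y z) = 0))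
    (ψ := fun y => 1 * ind (FF y z ≠ 0) + -1 * ind (¬ good a y) + 0) (fun y => ?_) n 1
  · have h5 : 1 / 8 * ind ((n : ℤ) ≤ 8 * z.k ^ 2) ≤ E n (fun y => ind (FF y z ≠ 0)) 1 := by
      by_cases hz : (n : ℤ) ≤ 8 * z.k ^ 2
      · obtain ⟨m, rfl⟩ := Nat.exists_eq_succ_of_ne_zero n0.ne'
        rw [ind_pos hz, mul_one]
        exact nz m z (fk z hz).1
      · rw [ind_neg hz, mul_zero]
        exact (St_01 _ _ (i01 _) n 1).1
    simp only [E] at *
    linarith
  have m1 := ind_mono (Set.subset_union_left (s := S) (t := Set.Ioi lo)) (val x y z)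
  have m2 := i01 (fun y => FF y z ≠ 0) y
  have m3 := i01 (fun y => ¬ good a y)
  by_cases g1 : good a y
  swap
  · rw [ind_pos g1]; linarith [m3 z]
  by_cases g2 : good a z
  swap
  · rw [ind_pos g2]; linarith [m3 y]
  by_cases g3 : FF y z = 0
  · rw [ind_neg (not_not.2 g3)]; linarith [m3 y, m3 z]
  obtain ⟨s1, s, s2, s3⟩ := sep (x := x) g1 g2 g3 (fk x hx).2
  rw [ind_pos (P := r S _ = 0), ind_neg (P := r (S ∪ _) _ = 0)]
  · linarith [m3 y, m3 z]
  · exact fun h => s3 (by simpa [r, show lo < s from s2] using congrFun h s)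
  · ext s
    by_cases hs : s ∈ S
    · simp [r, hs, s1 s (hS hs)]
    · simp [r, hs]

theorem main : ∃ (G : Type) (_ : Group G) (S : Finset G) (d : ℕ) (w : FreeGroup (Fin d)),
    1 ≤ d ∧ (∀ s ∈ S, s⁻¹ ∈ S) ∧ Subgroup.closure (S : Set G) = ⊤ ∧ S.Nonempty ∧
    limsup (prob S w) atTop ≠ liminf (prob S w) atTop := by
  obtain ⟨U, hU⟩ := osc pp _ (by norm_num)
    (fun n S => St_01 _ _ (fun _ => St_01 _ _ (fun _ => St_01 _ _ (i01 _) _ _) _ _) _ _) pp_loc
    (fun n S S' h => E_mono (fun x => E_mono (fun z => E_mono (fun y => ind_mono h _) n) n) n) pp_gap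
  let G := Subgroup.closure {ga U, gt U}
  let a : G := ⟨ga U, Subgroup.subset_closure (by simp)⟩
  let t : G := ⟨gt U, Subgroup.subset_closure (by simp)⟩
  let u : FreeGroup (Fin 3) := ⁅FreeGroup.of (2 : Fin 3), FreeGroup.of (1 : Fin 3)⁆
  have d1 : ∀ x y : G, x.1.f.coeff 0 + 2 * x.1.k ≠ y.1.f.coeff 0 + 2 * y.1.k → x ≠ y :=
    fun x y h e => h (by rw [e])
  have c1 : (1 : A).coeff 0 = 1 := by simp [← LaurentPolynomial.T_zero]
  have e1 : a ≠ a⁻¹ := d1 _ _ (by simp [a, ga, AddMonoidAlgebra.coeff_neg, c1])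
  have e2 : a ≠ t := d1 _ _ (by simp [a, t, ga, gt, c1])
  have e3 : a ≠ t⁻¹ := d1 _ _ (by simp [a, t, ga, gt, c1])
  have e4 : a⁻¹ ≠ t := d1 _ _ (by simp [a, t, ga, gt, AddMonoidAlgebra.coeff_neg, c1])
  have e5 : a⁻¹ ≠ t⁻¹ := by simpa using e2
  have e6 : t ≠ t⁻¹ := d1 _ _ (by simp [t, gt])
  have hl : lazy {a, a⁻¹, t, t⁻¹} = St a t := by
    ext φ g
    rw [lazy, St, Finset.sum_insert (by simp [e1, e2, e3]), Finset.sum_insert (by simp [e4, e5]),
      Finset.sum_pair e6, Finset.card_insert_of_notMem (by simp [e1, e2, e3]),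
      Finset.card_insert_of_notMem (by simp [e4, e5]), Finset.card_pair e6]
    push_cast; ring
  let π : G →* L := (pr U).comp G.subtype
  have hE : ∀ n (ψ : L → ℝ), Ex {a, a⁻¹, t, t⁻¹} n (fun g => ψ (π g)) = E n ψ 1 := fun n ψ => by
    rw [Ex, hl, St_hom, map_one]; rfl
  refine ⟨G, inferInstance, {a, a⁻¹, t, t⁻¹}, 3, 
    ⁅u, FreeGroup.of 0 ^ 200 * u * (FreeGroup.of 0 ^ 200)⁻¹⁆, by norm_num, by simp, ?_, by simp, ?_⟩
  · refine top_le_iff.1 (le_trans (Subgroup.closure_closure_coe_preimage).ge (Subgroup.closure_mono ?_))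
    rintro ⟨x, hx⟩ (rfl | rfl) <;> simp [a, t]
  · have key : ∀ n, prob {a, a⁻¹, t, t⁻¹}
        ⁅u, FreeGroup.of 0 ^ 200 * u * (FreeGroup.of 0 ^ 200)⁻¹⁆ n = pp n U := by
      intro n
      rw [pp, ← hE, prob, ExD]
      refine congrArg _ (funext fun x => ?_)
      rw [← hE, ExD]
      refine congrArg _ (funext fun z => ?_)
      rw [← hE, ExD]
      refine congrArg _ (funext fun y => ?_)
      rw [ExD]
      refine congrArg ind (propext ?_)
      rw [← G.subtype_injective.eq_iff]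
      simp only [u, map_commutatorElement, map_mul, map_inv, map_pow, FreeGroup.lift_apply_of,
        map_one]
      have hv : val (π x) (π y) (π z) = val x.1 y.1 z.1 := by
        unfold val FF; rfl
      rw [hv, ← law]
      generalize (200 : ℕ) = M
      rfl
    rw [funext key]
    exact hU

end Pool.Agent.H.MP_6a29fd_al
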